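import Pool.Agent.Helper562.CMFinC

set_option autoImplicit false

open Set

namespace Pool.Agent.Results.MP_54123e_gt.NotCantor

open Pool.Agent.Helper562.CM

/-- sanity: the empty space has dimension at most `-1` -/
lemma dimLE_empty {X : Type*} [TopologicalSpace X] [IsEmpty X] : DimLE X (-1) := by
  intro 𝒰 _ _ _
  exact ⟨∅, finite_empty, by simp, by
    rw [eq_univ_iff_forall]
    exact fun x => isEmptyElim x, by simp, fun x => isEmptyElim x⟩

/-- sanity: a nonempty space does not have dimension at most `-1` -/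
lemma not_dimLE_of_nonempty {X : Type*} [TopologicalSpace X] [Nonempty X] : ¬ DimLE X (-1) := by
  intro h
  obtain ⟨𝒱, h1, -, h3, -, h5⟩ := h {univ} (finite_singleton _) (by simp) (by simp)
  obtain ⟨x⟩ := ‹Nonempty X›
  have hx : x ∈ ⋃₀ 𝒱 := by
    rw [h3]
    trivial
  obtain ⟨V, hV, hxV⟩ := hx
  have hfin : {V ∈ 𝒱 | x ∈ V}.Finite := h1.subset (sep_subset _ _)
  have hpos : 0 < {V ∈ 𝒱 | x ∈ V}.ncard := (ncard_pos hfin).2 ⟨V, hV, hxV⟩
  have := h5 x
  omega

/-- sanity: for `m ≥ 1` the symmetric product of a compact space is compact -/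
lemma compactSpace_symProd {E : Type*} [MetricSpace E] [CompactSpace E] {m : ℕ} (hm : 1 ≤ m) :
    CompactSpace (SymProd E m) := by
  classical
  have : Nonempty (Fin m) := ⟨⟨0, hm⟩⟩
  have hsurj : Function.Surjective (toSym (E := E) (ι := Fin m) (m := m) (by simp)) := by
    intro A
    have hfin : (A.1 : Set E).Finite := Set.finite_of_encard_le_coe A.2
    obtain ⟨a, ha⟩ := A.1.nonempty
    have hcard : hfin.toFinset.card ≤ m := by
      have h1 := A.2
      rw [hfin.encard_eq_coe_toFinset_card] at h1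
      exact_mod_cast h1
    let e := hfin.toFinset.equivFin
    let z : Fin m → E := fun i => if h : i.1 < hfin.toFinset.card then (e.symm ⟨i.1, h⟩ : E) else a
    refine ⟨z, ?_⟩
    apply Subtype.ext
    apply TopologicalSpace.NonemptyCompacts.ext
    show range z = (A.1 : Set E)
    ext x
    constructor
    · rintro ⟨i, rfl⟩
      simp only [z]
      split_ifs with h
      · exact hfin.mem_toFinset.1 (e.symm ⟨i.1, h⟩).2
      · exact ha
    · intro hx
      have hx' : x ∈ hfin.toFinset := hfin.mem_toFinset.2 hx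
      have h2 : (e ⟨x, hx'⟩).1 < m := (e ⟨x, hx'⟩).2.trans_le hcard
      refine ⟨⟨(e ⟨x, hx'⟩).1, h2⟩, ?_⟩
      simp only [z]
      rw [dif_pos (e ⟨x, hx'⟩).2]
      simp
  have hc := isCompact_range (continuous_toSym (E := E) (ι := Fin m) (m := m) (by simp))
  rw [hsurj.range_eq] at hc
  exact ⟨hc⟩

/-- There is a compact metric space `E` which is a `2`-dimensional Cantor manifold, such that for
every `m ≥ 4` the symmetric product `E(m)` is not a Cantor manifold of any dimension: there is a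
closed set `C` with `Dim C ≤ 2 m - 2` and `Dim E(m) ≥ 2 m` whose complement is not connected. -/
theorem result : ∃ (E : Type) (_ : MetricSpace E) (_ : CompactSpace E), IsCantorManifold E 2 ∧
    ∀ m : ℕ, 4 ≤ m →
      (∀ k : ℤ, ¬ IsCantorManifold (SymProd E m) k) ∧
      ∃ C : Set (SymProd E m), IsClosed C ∧ DimLE C (2 * m - 2) ∧
        ¬ DimLE (SymProd E m) (2 * m - 1) ∧ ¬ IsPreconnected Cᶜ := by
  obtain ⟨K₁, K₂, h₁, h₂⟩ := exists_minEss
  have hcl : IsClosed (K₁ ∪ K₂) := h₁.closed.union h₂.closed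
  refine ⟨(K₁ ∪ K₂ : Set Wsp), inferInstance, isCompact_iff_compactSpace.1 hcl.isCompact,
    cantor_union h₁ h₂ (by simp) (by simp), ?_⟩
  intro m hm
  obtain ⟨C, hC, hCd, hCn⟩ := exists_separator h₁ h₂ hm
  have hlow := dim_lower h₁ h₂ (m := m) (by omega)
  refine ⟨?_, C, hC, hCd, hlow, hCn⟩
  rintro k ⟨-, ⟨hk, -⟩, hk2⟩
  have hk' : (2 * m : ℤ) ≤ k := by
    by_contra hlt
    exact hlow (hk.mono (by omega))
  exact hCn (hk2 C hC (hCd.mono (by omega))).isPreconnected

end Pool.Agent.Results.MP_54123e_gt.NotCantor
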